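import Pool.Agent.N436.DF.All3

/-!
# Sparse critical graphs for two-part defective colouring: the whole open range

For all `d₁`, `d₂` with `d₁ + 2 ≤ d₂ ≤ 2 d₁ + 1`, and also for all `d₁ ≥ 2`, `d₂ ≥ d₁ + 2`, every
`(Δ_{d₁}, Δ_{d₂})`-critical graph `G` satisfies `e(G) ≥ (2 - α) n(G) + 1/(d₂+1)` with
`α = (d₂+2)/((d₁+2)(d₂+1))`. Borodin and Kostochka (2014) proved this for `d₂ ≥ 2 d₁ + 2`; so Q1
is answered: there is no such critical graph with `ρ(G) > -β`.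
-/

namespace Pool.Agent.Results.MP_4006b4_co.CompleteRange

/-- `G` has a `(Δ_{d₁}, Δ_{d₂})`-colouring: the vertex set is split into `A` and its complement,
every vertex of `A` has at most `d₁` neighbours in `A`, and every vertex outside `A` has at most
`d₂` neighbours outside `A`. -/
def Colourable (d₁ d₂ : ℕ) {V : Type} (G : SimpleGraph V) : Prop :=
  ∃ A : Set V, (∀ v ∈ A, (G.neighborSet v ∩ A).ncard ≤ d₁) ∧
    (∀ v ∈ Aᶜ, (G.neighborSet v ∩ Aᶜ).ncard ≤ d₂)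

/-- `G` is `(Δ_{d₁}, Δ_{d₂})`-critical: it has no `(Δ_{d₁}, Δ_{d₂})`-colouring, but every proper
subgraph of `G` has one. -/
def Critical (d₁ d₂ : ℕ) {V : Type} (G : SimpleGraph V) : Prop :=
  ¬ Colourable d₁ d₂ G ∧ ∀ H : G.Subgraph, H ≠ ⊤ → Colourable d₁ d₂ H.coe

/-- For all `d₁`, `d₂` with `d₂ ≥ d₁ + 2` and (`d₂ ≤ 2 d₁ + 1` or `d₁ ≥ 2`), every
`(Δ_{d₁}, Δ_{d₂})`-critical finite graph has at least
`(2 - (d₂+2)/((d₁+2)(d₂+1))) n + 1/(d₂+1)` edges. -/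
theorem result (d₁ d₂ : ℕ) (h₁ : d₁ + 2 ≤ d₂) (h₂ : d₂ ≤ 2 * d₁ + 1 ∨ 2 ≤ d₁)
    (V : Type) [Fintype V] (G : SimpleGraph V) (hG : Critical d₁ d₂ G) :
    (2 - ((d₂ : ℚ) + 2) / (((d₁ : ℚ) + 2) * ((d₂ : ℚ) + 1))) * (Fintype.card V : ℚ)
      + 1 / ((d₂ : ℚ) + 1) ≤ (G.edgeSet.ncard : ℚ) := by
  by_cases h : 2 ≤ d₁
  · exact Pool.Agent.N436.DF.graph2_h Pool.Agent.N436.DF.main_h Pool.Agent.N436.DF.main2_h
      d₁ d₂ h h₁ V G ⟨hG.1, hG.2⟩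
  · obtain rfl : d₁ = 1 := by omega
    obtain rfl : d₂ = 3 := by omega
    have hmain := Pool.Agent.N436.DF.graph13_h V G ⟨hG.1, hG.2⟩
    norm_num at hmain ⊢
    exact hmain

end Pool.Agent.Results.MP_4006b4_co.CompleteRange
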